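import Pool.Agent.H76.AB.Stm

set_option autoImplicit false

namespace H34.AB

open SimpleGraph H76.AB

theorem t_RAM (hPRUNE : S_PRUNE) (hCASE : S_CASE) (hRAMA : S_RAMA) (hRAMB : S_RAMB) : S_RAM := by
  intro W _ T q s hT hq hs hE1 hE
  classical
  obtain ⟨N₀, hN₀⟩ := hPRUNE s.length (fun i => q * s.getD i 0) q (Nat.card W) (by omega)
  refine ⟨N₀, ?_⟩
  intro N g R hN hg hSys c
  have hkap : ∀ x : R.V, ∃ j : Fin q,
      Nat.card W ≤ {d : Fin (q * Nat.card W) | c s(Sum.inl x, Sum.inr (x, d)) = j}.ncard := by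
    intro x
    have : Nonempty (Fin q) := ⟨⟨0, by omega⟩⟩
    obtain ⟨j, hj⟩ := Fintype.exists_le_card_fiber_of_mul_le_card
      (fun d : Fin (q * Nat.card W) => c s(Sum.inl x, Sum.inr (x, d)))
      (n := Nat.card W) (by simp)
    refine ⟨j, ?_⟩
    rw [Set.ncard_eq_toFinset_card']
    convert hj using 2
    ext d
    simp
  choose kap hkap using hkap
  obtain ⟨K, τ, j, h1, h2, h3, h4⟩ := hN₀ N g R hN hSys
    (fun x p => c s(Sum.inl x, Sum.inl (R.par x p))) kap
  have hHom : Hom R s.length (fun i => q * s.getD i 0) (Nat.card W)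
      (fun x p => c s(Sum.inl x, Sum.inl (R.par x p))) K τ := ⟨h1, h2, h4⟩
  rcases hCASE q s τ (by omega) with h | ⟨P, i, hP1, hP2, hP3, hP4⟩
  · exact hRAMB W T q s N g (q * Nat.card W) R hT hs hE1 hg hSys c K τ j hHom
      (fun x hx hn => by rw [← h3 x hx hn]; exact hkap x) (fun P hP hPl => h P hP hPl j)
  · exact hRAMA W T q s N g (q * Nat.card W) R hT hs hE hg hSys c K τ P i hHom hP1 hP2 hP3
      (fun Q a b c => hP4 Q a b c i)

end H34.AB
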