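import Pool.Agent.H76.AB.Stm

set_option autoImplicit false

namespace H34.AB

open SimpleGraph H76.AB

/-- nodes reachable from `P` by steps of colour `i`. -/
inductive Rch {q : ℕ} (τ : List ℕ → ℕ → Fin q) (i : Fin q) (P : List ℕ) : List ℕ → Prop
  | base : Rch τ i P P
  | step (Q : List ℕ) (p : ℕ) : Rch τ i P Q → τ Q p = i → Rch τ i P (p :: Q)

lemma Rch.len {q : ℕ} {τ : List ℕ → ℕ → Fin q} {i : Fin q} {P Q : List ℕ} (h : Rch τ i P Q) :
    P.length ≤ Q.length := by
  induction h with
  | base => exact le_rfl
  | step Q p _ _ ih => simp only [List.length_cons]; omega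

lemma Rch.eq_of_len {q : ℕ} {τ : List ℕ → ℕ → Fin q} {i : Fin q} {P Q : List ℕ}
    (h : Rch τ i P Q) (hl : Q.length = P.length) : Q = P := by
  cases h with
  | base => rfl
  | step Q p h _ =>
    have := h.len
    simp only [List.length_cons] at hl
    omega

lemma Rch.inv {q : ℕ} {τ : List ℕ → ℕ → Fin q} {i : Fin q} {P Q : List ℕ}
    (h : Rch τ i P Q) (hl : P.length < Q.length) :
    ∃ p Q', Q = p :: Q' ∧ Rch τ i P Q' ∧ τ Q' p = i := by
  cases h with
  | base => omega
  | step Q p h h' => exact ⟨p, Q, rfl, h, h'⟩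

theorem t_RAMA (hEMB : S_EMB) (hINJ : S_INJ) : S_RAMA := by
  intro W _ T q s N g D R hT hs hE hWg hSys c K τ P i hHom hVP hPm hcP hcQ
  classical
  obtain ⟨hH1, hH2, hH3⟩ := hHom
  have : Finite R.V := hSys.fin
  set m := s.length with hm
  set w : ℕ → ℕ := fun i => q * s.getD i 0 with hw
  have hWne : Nonempty W := hT.connected.nonempty
  have hW1 : 1 ≤ Nat.card W := Nat.one_le_iff_ne_zero.2 (Nat.card_pos).ne'
  -- nodes of K are valid
  have hval : ∀ (Q : List ℕ), (∃ u ∈ K, R.node u = Q) → Valid m w Q := by
    intro Q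
    induction Q with
    | nil => intro _; trivial
    | cons p Q ih =>
      rintro ⟨u, hu, hn⟩
      have h1 : R.lev u ≤ m := hSys.len u
      have h2 : p < w Q.length := hSys.hval u p Q hn
      have h3 := hH3 u hu p Q hn
      have h4 : {x | x ∈ K ∧ R.node x = Q ∧ R.par x p = u}.Nonempty := by
        rw [← Set.ncard_pos (Set.toFinite _)]
        omega
      obtain ⟨x, hx1, hx2, _⟩ := h4
      refine ⟨?_, h2, ih ⟨x, hx1, hx2⟩⟩
      unfold Raw.lev at h1
      rw [hn] at h1
      simpa using h1
  -- every valid list is the node of some vertex of K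
  have hex : ∀ (Q : List ℕ), Valid m w Q → ∃ u ∈ K, R.node u = Q := by
    intro Q
    induction Q with
    | nil => intro _; exact hH1
    | cons p Q ih =>
      rintro ⟨h1, h2, h3⟩
      obtain ⟨u, hu, hn⟩ := ih h3
      have hl : R.lev u = Q.length := by unfold Raw.lev; rw [hn]
      refine ⟨R.par u p, (hH2 u hu (by omega) p (by rw [hl]; exact h2)).1, ?_⟩
      rw [hSys.hpar u p (by omega) (by rw [hl]; exact h2), hn]
  have hsuf : s = s.take P.length ++ s.getD P.length 0 :: s.drop (P.length + 1) := by
    have h1 : s.getD P.length 0 = s[P.length] := by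
      rw [List.getD_eq_getElem s 0 hPm]
    rw [h1, List.cons_getElem_drop_succ, List.take_append_drop]
  obtain ⟨lam, hlam1, hlam2, hlam3⟩ := hE _ _ _ hsuf
  set a := s.getD P.length 0 with ha
  set suf := s.drop (P.length + 1) with hsufdef
  have hsl : suf.length = m - (P.length + 1) := by rw [hsufdef, List.length_drop]
  have hsget : ∀ j, suf.getD j 0 = s.getD (P.length + 1 + j) 0 := by
    intro j
    rw [hsufdef, List.getD_eq_getElem?_getD, List.getD_eq_getElem?_getD, List.getElem?_drop]
  -- counting: at every reachable node of K there are enough positions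
  have hcount : ∀ Q, Rch τ i P Q → Valid m w Q → Q.length < m →
      ((a + 1) :: suf).getD (Q.length - P.length) 0 ≤ cnt w τ Q i := by
    intro Q hQ hVQ hQm
    rcases Nat.eq_or_lt_of_le hQ.len with h | h
    · have := hQ.eq_of_len h.symm
      subst this
      simpa using hcP
    · obtain ⟨j, hj⟩ : ∃ j, Q.length - P.length = j + 1 := ⟨Q.length - P.length - 1, by omega⟩
      rw [hj, List.getD_cons_succ, hsget, show P.length + 1 + j = Q.length by omega]
      exact hcQ Q hVQ h hQm
  have hcount1 : ∀ Q, Rch τ i P Q → Valid m w Q → Q.length < m → 1 ≤ cnt w τ Q i := by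
    intro Q hQ hVQ hQm
    rcases Nat.eq_or_lt_of_le hQ.len with h | h
    · have := hQ.eq_of_len h.symm
      subst this
      have := hcP
      omega
    · have h1 := hcQ Q hVQ h hQm
      have h2 : 1 ≤ s.getD Q.length 0 := by
        rw [List.getD_eq_getElem s 0 hQm]
        exact hs _ (List.getElem_mem _)
      exact h2.trans h1
  set H' : SimpleGraph R.V :=
    { Adj := fun x y => (R.H m w).Adj x y ∧ c s(Sum.inl x, Sum.inl y) = i
      symm := ⟨fun x y h => ⟨h.1.symm, by rw [Sym2.eq_swap]; exact h.2⟩⟩
      loopless := ⟨fun x h => (R.H m w).irrefl h.1⟩ } with hH'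
  have hstep : ∀ x ∈ K, R.lev x < m → ∀ p, p < w (R.lev x) → τ (R.node x) p = i →
      H'.Adj x (R.par x p) := by
    intro x hx hl p hp hτ
    have hn := hSys.hpar x p hl hp
    refine ⟨⟨?_, Or.inl ⟨p, hl, hp, rfl⟩⟩, ?_⟩
    · intro h
      have h2 : (R.node (R.par x p)).length = (p :: R.node x).length := by rw [hn]
      rw [← h] at h2
      simp at h2
    · have h2 : c s(Sum.inl x, Sum.inl (R.par x p)) = τ (R.node x) p := (hH2 x hx hl p hp).2
      rw [h2, hτ]
  have hemb := hEMB R.V W T H' (fun x => R.lev x - P.length) {x | x ∈ K ∧ Rch τ i P (R.node x)} lam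
    (fun j => ((a + 1) :: suf).getD j 0) (m - P.length) hT ?_ ?_ ?_ ?_ hlam2 hlam3
  · obtain ⟨f, hf1, hf2, hf3⟩ := hemb
    have hloc : LocF (R.H m w) (Nat.card W) := fun S hS hSc => hSys.forest S hS (hSc.trans hWg)
    have hinj := hINJ R.V W T (R.H m w) f hT.connected hloc (fun x y h => (hf2 x y h).1) hf3
    refine ⟨i, fun x => Sum.inl (f x), fun x y h => hinj (Sum.inl_injective h), ?_⟩
    intro x y h
    exact ⟨(hf2 x y h).1, (hf2 x y h).2⟩
  · -- children
    rintro u ⟨hu, hR⟩ hlu
    have hlt : P.length < (R.node u).length := by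
      have : 1 ≤ (R.node u).length - P.length := hlu
      omega
    obtain ⟨p, Q, hn, hRQ, hτ⟩ := hR.inv hlt
    have h3 := hH3 u hu p Q hn
    refine ⟨(Set.toFinite {x | x ∈ K ∧ R.node x = Q ∧ R.par x p = u}).toFinset, ?_, ?_⟩
    · rw [← Set.ncard_eq_toFinset_card _ (Set.toFinite _)]
      exact h3
    · intro x hx
      obtain ⟨hx1, hx2, hx3⟩ := (Set.Finite.mem_toFinset _).1 hx
      have hlx : R.lev x = Q.length := by unfold Raw.lev; rw [hx2]
      have hlu' : R.lev u = Q.length + 1 := by unfold Raw.lev; rw [hn]; simp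
      have hlm : R.lev u ≤ m := hSys.len u
      have hp : p < w Q.length := hSys.hval u p Q hn
      have hadj := hstep x hx1 (by omega) p (by rw [hlx]; exact hp) (by rw [hx2]; exact hτ)
      rw [hx3] at hadj
      refine ⟨⟨hx1, by rw [hx2]; exact hRQ⟩, hadj.symm, ?_⟩
      have := hRQ.len
      show R.lev x - P.length + 1 = R.lev u - P.length
      omega
  · -- parents
    rintro u ⟨hu, hR⟩ hlu
    have hlen := hR.len
    have hlt : (R.node u).length < m := by
      have : (R.node u).length - P.length < m - P.length := hlu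
      omega
    have hV := hval _ ⟨u, hu, rfl⟩
    have hfin : {p | p < w (R.node u).length ∧ τ (R.node u) p = i}.Finite :=
      (Set.finite_Iio (w (R.node u).length)).subset fun p hp => hp.1
    refine ⟨hfin.toFinset.image (fun p => R.par u p), ?_, ?_⟩
    · rw [Finset.card_image_of_injOn]
      · rw [← Set.ncard_eq_toFinset_card _ hfin]
        exact hcount _ hR hV hlt
      · intro p hp p' hp' he
        have hp := (Set.Finite.mem_toFinset hfin).1 (Finset.mem_coe.1 hp)
        have hp' := (Set.Finite.mem_toFinset hfin).1 (Finset.mem_coe.1 hp')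
        simp only at he
        have e1 := hSys.hpar u p hlt hp.1
        have e2 := hSys.hpar u p' hlt hp'.1
        rw [he, e2] at e1
        exact (List.cons.inj e1).1.symm
    · intro x hx
      obtain ⟨p, hp, rfl⟩ := Finset.mem_image.1 hx
      have hp := (Set.Finite.mem_toFinset hfin).1 hp
      have hn := hSys.hpar u p hlt hp.1
      refine ⟨⟨(hH2 u hu hlt p hp.1).1, ?_⟩, hstep u hu hlt p hp.1 hp.2, ?_⟩
      · rw [hn]; exact Rch.step _ _ hR hp.2
      · show (R.node (R.par u p)).length - P.length = (R.node u).length - P.length + 1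
        rw [hn, List.length_cons]
        omega
  · -- nonempty levels
    intro j
    induction j with
    | zero =>
      intro _
      obtain ⟨u, hu, hn⟩ := hex P hVP
      refine ⟨u, ⟨hu, by rw [hn]; exact Rch.base⟩, ?_⟩
      show (R.node u).length - P.length = 0
      rw [hn]; omega
    | succ j ih =>
      intro hj
      obtain ⟨u, ⟨hu, hR⟩, hlu⟩ := ih (by omega)
      have hlu' : (R.node u).length - P.length = j := hlu
      have hlen := hR.len
      have hlt : (R.node u).length < m := by omega
      have h1 := hcount1 _ hR (hval _ ⟨u, hu, rfl⟩) hlt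
      have h2 : {p | p < w (R.node u).length ∧ τ (R.node u) p = i}.Nonempty := by
        have hfin : {p | p < w (R.node u).length ∧ τ (R.node u) p = i}.Finite :=
          (Set.finite_Iio (w (R.node u).length)).subset fun p hp => hp.1
        rw [← Set.ncard_pos hfin]
        exact h1
      obtain ⟨p, hp1, hp2⟩ := h2
      have hn := hSys.hpar u p hlt hp1
      refine ⟨R.par u p, ⟨(hH2 u hu hlt p hp1).1, ?_⟩, ?_⟩
      · rw [hn]; exact Rch.step _ _ hR hp2
      · show (R.node (R.par u p)).length - P.length = j + 1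
        rw [hn, List.length_cons]
        omega
  · intro x
    have := hlam1 x
    simp only [List.length_cons] at this
    omega

end H34.AB
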